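import Pool.Agent.Work.MP_0909b4_al.Defs

/-! Statement-level definition: automatic groups. -/

namespace Pool.Agent.Work.MP_0909b4_al

/-- Automatic: a finite symmetric set `S`, a regular language `L` over `S` mapping onto `G`, and
`K` such that `u = v b` in `G` (with `u v ∈ L`, `b ∈ S ∪ {1}`) forces `d_S (u (t), v (t)) ≤ K` for
all `t`. This is the definition of a biautomatic group with the left factor `a = 1` only. -/
def IsAutomatic (G : Type) [Group G] : Prop :=
  ∃ (S : Finset G) (L : Language S) (K : ℕ),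
    (∀ s ∈ S, s⁻¹ ∈ S) ∧ L.IsRegular ∧ (∀ g : G, ∃ w ∈ L, evalWord w = g) ∧
    ∀ u ∈ L, ∀ v ∈ L, ∀ b : G, (b ∈ S ∨ b = 1) → evalWord u = evalWord v * b →
      ∀ t : ℕ, ∃ w : List S, w.length ≤ K ∧
        evalWord (u.take t) * evalWord w = evalWord (v.take t)

end Pool.Agent.Work.MP_0909b4_al
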