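import Pool.Agent.Work.MP_0909b4_al.NU.Defs
import Pool.Agent.Work.MP_0909b4_al.NAMain

/-! The counterexample acts freely by simplicial automorphisms and is not automatic. -/

namespace Pool.Agent.Work.MP_0909b4_al.NA

theorem nu_exists_aut {G : Type} [Group G] (h : IsAutomatic G) : Nonempty (Aut G) := by
  classical
  obtain ⟨S, L, K, hs, ⟨σ, hσ, M, rfl⟩, honto, hft⟩ := h
  have hmin : ∀ g : G, ∃ w ∈ M.accepts, evalWord w = g ∧
      ∀ w' ∈ M.accepts, evalWord w' = g → w.length ≤ w'.length := by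
    intro g
    have hex : ∃ n, ∃ w ∈ M.accepts, evalWord w = g ∧ w.length = n := by
      obtain ⟨w, hw, hg⟩ := honto g
      exact ⟨_, w, hw, hg, rfl⟩
    obtain ⟨w, hw, hg, hn⟩ := Nat.find_spec hex
    refine ⟨w, hw, hg, fun w' hw' hg' => ?_⟩
    rw [hn]
    exact Nat.find_min' hex ⟨w', hw', hg', rfl⟩
  choose u hu1 hu2 hu3 using hmin
  exact ⟨⟨S, σ, inferInstance, M, K, hs, u, hu1, hu2, fun w hw => hu3 _ w hw rfl, hft⟩⟩

theorem nu_main (S : Sub) : ∃ (K : PECx) (_ : MetricSpace K.Pt) (G : Type) (_ : Group G)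
    (_ : MulAction G K.Pt), (∃ σ ∈ K.faces, σ.card = 3) ∧ (∀ x y : K.Pt, ∃ r, K.Chain x y r) ∧
    (∀ x y : K.Pt, dist x y = K.d x y) ∧ IsCAT0 K.Pt ∧
    (∀ (g : G) (x y : K.Pt), dist (g • x) (g • y) = dist x y) ∧
    (∀ g : G, ∃ φ : K.V ≃ K.V, ∀ (x : K.Pt) (v : K.V), (g • x).co (φ v) = x.co v) ∧
    (∀ (g : G) (x : K.Pt), g • x = x → g = 1) ∧
    (∀ x : K.Pt, ∃ r > 0, {g : G | ∃ y ∈ Metric.ball x r, g • y ∈ Metric.ball x r}.Finite) ∧
    (∃ C : Set K.Pt, IsCompact C ∧ ∀ x : K.Pt, ∃ g : G, g • x ∈ C) ∧ Group.FG G ∧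
    ¬IsAutomatic G ∧ ¬IsBiautomatic G := by
  let K := S.poly.gcx
  obtain ⟨h₁, h₂, h₃, h₄⟩ := K.cx.cat0
  obtain ⟨C⟩ := S.poly.cells
  obtain ⟨P⟩ := Sub.patchSys C
  obtain ⟨F⟩ := P.flat
  let x₀ : K.cx.P := K.cx.vpt (1, none)
  obtain ⟨R₀, hR⟩ := K.cob x₀
  have hg : GeoAct K.Γ K.cx.P x₀ R₀ :=
    ⟨K.iso, h₄, h₂, hR, finite_of_sep K.iso K.act.δ_pos K.act.sep x₀⟩
  obtain ⟨G, hG⟩ := Sub.exists_val (S := S)
  obtain ⟨k, hk⟩ := S.co_surj (S.ty G.1)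
  have hx : S.ok (.core (S.dart G.1 k, G.2)) := by
    change S.Val (S.dch (S.dart G.1 k), G.2)
    rw [S.dch_dart _ _ hk]
    exact hG
  have hc : ∀ g : K.Γ, ∃ φ : K.V ≃ K.V, ∀ (x : K.cx.P) (v : K.V), (g • x).co (φ v) = x.co v :=
    fun g => ⟨K.sh g, fun x v => congrArg x.co ((K.sh g).symm_apply_apply v)⟩
  have hf : ∀ (g : K.Γ) (x : K.cx.P), g • x = x → g = 1 := fun g x h => by
    obtain ⟨δ, hδ, hs⟩ := K.sep
    by_contra hne
    have := hs g hne x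
    rw [h, dist_self] at this
    exact absurd this (not_le.2 hδ)
  have ha : ¬IsAutomatic K.Γ := fun hb => by
    obtain ⟨A⟩ := nu_exists_aut hb
    obtain ⟨c⟩ := A.exists_comb
    exact hg.no_comb F c
  exact ⟨K.cx.toPECx, inferInstance, K.Γ, inferInstance, inferInstance,
    K.exists_tri (⟨_, hx⟩, false), DevCx.chain_exists, fun _ _ => rfl, h₁, K.iso, hc, hf, K.proper,
    K.cocompact, K.fg, ha, hg.not_biautomatic F⟩

end Pool.Agent.Work.MP_0909b4_al.NA
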